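import Pool.Agent.XD.Defs

/-!
# A projection of the permanent of linear degree with full rank (XH): definitions

Positions `Fin m` (letters which are contracted) and `Fin M` (letters which multiply). A word is a
triple of a vector of bits `z`, a permutation `σ` of `Fin m` and a permutation `σ'` of `Fin M`.
-/

set_option autoImplicit false

namespace Pool.XH

open Finset Pool.XD

section general

variable {IU IV AU AV W : Type}

/-- the letters: a position and a symbol -/
abbrev LtP (IU IV AU AV : Type) : Type := (IU × AU) ⊕ (IV × AV)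

/-- the type of a letter -/
def tyP (x : LtP IU IV AU AV) : Bool := Sum.elim (fun _ => true) (fun _ => false) x

/-- the sum of the monomials of the words; the word `s` has the symbol `a s p` at the position
`p : IU` and the symbol `b s p` at the position `p : IV` -/
noncomputable def wordP [Fintype IU] [Fintype IV] [Fintype W] (a : W → IU → AU) (b : W → IV → AV)
    (K : Type) [CommRing K] : MvPolynomial (LtP IU IV AU AV) K :=
  ∑ s : W, (∏ p, MvPolynomial.X (Sum.inl (p, a s p))) * ∏ p, MvPolynomial.X (Sum.inr (p, b s p))

open Classical in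
/-- the sum over the triples of words which can occur in a 4-cycle -/
noncomputable def cyc3 [Fintype IU] [Fintype IV] [Fintype W] (a : W → IU → AU) (b : W → IV → AV)
    (oU oV : ℝ) : ℝ :=
  ∑ s1 : W, ∑ s2 : W, ∑ s4 : W,
    if (∀ p, a s4 p = a s1 p ∨ a s2 p = a s1 p) ∧ (∀ p, b s2 p = b s1 p ∨ b s4 p = b s1 p) then
      oU ^ (univ.filter fun p => a s4 p = a s1 p).card *
        oV ^ (univ.filter fun p => b s2 p ≠ b s1 p).card
    else 0

end general

section words

variable {m M : ℕ}

/-- the words -/
abbrev Wz (m M : ℕ) : Type := (Fin M → Bool) × Equiv.Perm (Fin m) × Equiv.Perm (Fin M)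

/-- the symbol at the position `p` of the first kind -/
def aU (h : m ≤ M) (s : Wz m M) (p : Fin m) : Fin m × Bool := (s.2.1 p, s.1 (Fin.castLE h p))

/-- the symbol at the position `p` of the second kind -/
def aV (s : Wz m M) (p : Fin M) : Fin M × Bool := (s.2.2 p, s.1 p)

/-- the letters -/
abbrev Lz (m M : ℕ) : Type := LtP (Fin m) (Fin M) (Fin m × Bool) (Fin M × Bool)

/-- the hard projection of the permanent -/
noncomputable def hardP (h : m ≤ M) (K : Type) [CommRing K] : MvPolynomial (Lz m M) K :=
  wordP (aU h) aV K

/-- the bound of the number of 4-cycles -/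
noncomputable def Zs (h : m ≤ M) (oU oV : ℝ) : ℝ :=
  ∑ P : Finset (Fin m), ∑ P' : Finset (Fin M),
    oU ^ P.card * oV ^ P'.card *
      (1 / 2 : ℝ) ^ (univ.filter fun p : Fin m => ¬ (p ∈ P ↔ Fin.castLE h p ∈ P')).card /
        ((m.choose P.card : ℝ) * (M.choose P'.card : ℝ))

end words

end Pool.XH
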